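import Pool.Agent.helper97.GD.Spec

set_option autoImplicit false

open Filter FirstOrder FirstOrder.Language

namespace Pool.Agent.GD

open Pool.Agent.UnivT

theorem GNF_pow (e y : ℤ) (h0 : 0 ≤ e) (h : e ≤ y) : (2 : ℤ) ^ y.toNat = 2 ^ (y - e).toNat * 2 ^ e.toNat := by
  rw [← pow_add]
  congr 1
  omega

theorem GNF_ins (hGSM : GSM_stmt) (hGNG : GNG_stmt) (U : Ultrafilter ℕ) (N : ℕ → ℕ)
    (hN : Tendsto N (U : Filter ℕ) atTop) (a e : ℕ → ℤ) (ha : Sm U N a) (he : Fr U N e)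
    (ha0 : ∀ᶠ k in (U : Filter ℕ), a k ≠ 0) (l : List ((ℕ → ℤ) × (ℕ → ℤ))) (hl : ∀ x ∈ l, Sm U N x.1)
    (hnf : NFm U N l) :
    ∃ l' : List ((ℕ → ℤ) × (ℕ → ℤ)), (∀ x ∈ l', Sm U N x.1 ∧ (x.2 = e ∨ ∃ y ∈ l, x.2 = y.2)) ∧ NFm U N l' ∧
      ∀ᶠ k in (U : Filter ℕ), a k * 2 ^ (e k).toNat + sv l k = sv l' k := by
  obtain ⟨s1, s2, s3, s4, s5, s6⟩ := hGSM U N hN
  obtain ⟨g1, g2, g3, g4, g5, g6, g7, g8⟩ := hGNG U N hN
  have hnn : ∀ e : ℕ → ℤ, Fr U N e → ∀ᶠ k in (U : Filter ℕ), 0 ≤ e k := fun e he => by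
    filter_upwards [g7 e (fun _ => 0) he (g1 0)] with k hk
    simpa using hk.le
  induction l with
  | nil =>
    refine ⟨[(a, e)], ?_, ?_, ?_⟩
    · intro x hx
      rw [List.mem_singleton] at hx
      subst hx
      exact ⟨ha, Or.inl rfl⟩
    · refine ⟨List.pairwise_singleton _ _, ?_⟩
      intro x hx
      rw [List.mem_singleton] at hx
      subst hx
      exact ⟨he, ha0⟩
    · exact Eventually.of_forall fun k => by rw [sv_cons]
  | cons y m ih =>
    obtain ⟨hp, hq⟩ := hnf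
    rw [List.pairwise_cons] at hp
    have hy := hq y List.mem_cons_self
    have hys : Sm U N y.1 := hl y List.mem_cons_self
    have hm : ∀ x ∈ m, Sm U N x.1 := fun x hx => hl x (List.mem_cons_of_mem _ hx)
    have hmn : NFm U N m := ⟨hp.2, fun x hx => hq x (List.mem_cons_of_mem _ hx)⟩
    -- a merged term `(b, e')` on top of `m`
    have merge : ∀ (b e' : ℕ → ℤ), Sm U N b → Fr U N e' → Ng U N (fun k => e' k - y.2 k) → (e' = e ∨ e' = y.2) →
        (∀ᶠ k in (U : Filter ℕ), a k * 2 ^ (e k).toNat + y.1 k * 2 ^ (y.2 k).toNat = b k * 2 ^ (e' k).toNat) →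
        ∃ l' : List ((ℕ → ℤ) × (ℕ → ℤ)), (∀ x ∈ l', Sm U N x.1 ∧ (x.2 = e ∨ ∃ z ∈ y :: m, x.2 = z.2)) ∧ NFm U N l' ∧
          ∀ᶠ k in (U : Filter ℕ), a k * 2 ^ (e k).toNat + sv (y :: m) k = sv l' k := by
      intro b e' hb he' hng hee heq
      by_cases hb0 : ∀ᶠ k in (U : Filter ℕ), b k = 0
      · refine ⟨m, fun x hx => ⟨hm x hx, Or.inr ⟨x, List.mem_cons_of_mem _ hx, rfl⟩⟩, hmn, ?_⟩
        filter_upwards [hb0, heq] with k h1 h2
        rw [h1, zero_mul] at h2
        rw [sv_cons, ← add_assoc, h2, zero_add]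
      · have hb1 : ∀ᶠ k in (U : Filter ℕ), ¬ b k = 0 := Ultrafilter.eventually_not.2 hb0
        refine ⟨(b, e') :: m, ?_, ⟨?_, ?_⟩, ?_⟩
        · intro x hx
          rcases List.mem_cons.1 hx with rfl | hx
          · refine ⟨hb, ?_⟩
            rcases hee with h | h
            · exact Or.inl h
            · exact Or.inr ⟨y, List.mem_cons_self, h⟩
          · exact ⟨hm x hx, Or.inr ⟨x, List.mem_cons_of_mem _ hx, rfl⟩⟩
        · rw [List.pairwise_cons]
          refine ⟨fun z hz => ?_, hp.2⟩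
          have h1 := (g5 _ _ (hp.1 z hz) hng).1
          refine g8 _ _ h1 (Eventually.of_forall fun k => ?_)
          change y.2 k - z.2 k + (e' k - y.2 k) ≤ e' k - z.2 k
          linarith
        · intro x hx
          rcases List.mem_cons.1 hx with rfl | hx
          · exact ⟨he', hb1⟩
          · exact hmn.2 x hx
        · filter_upwards [heq] with k h2
          rw [sv_cons, sv_cons, ← add_assoc, h2]
    rcases g4 (fun k => e k - y.2 k) with h | h | h
    · -- negligible difference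
      have h' : Ng U N (fun k => y.2 k - e k) := g3 _ _ 1 h (Eventually.of_forall fun k => by
        have h1 : |y.2 k - e k| = |e k - y.2 k| := abs_sub_comm _ _
        change |y.2 k - e k| ≤ ((1 : ℕ) : ℤ) * (|e k - y.2 k| + 1)
        rw [h1]
        push_cast
        linarith)
      by_cases hc : ∀ᶠ k in (U : Filter ℕ), e k ≤ y.2 k
      · refine merge (fun k => a k + y.1 k * 2 ^ (y.2 k - e k).toNat) e ?_ he h (Or.inl rfl) ?_
        · exact (s2 _ _ ha (s2 _ _ hys (s4 _ h').2).2.2).1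
        · filter_upwards [hc, hnn e he] with k h1 h2
          rw [GNF_pow (e k) (y.2 k) h2 h1]
          ring
      · have hc' : ∀ᶠ k in (U : Filter ℕ), ¬ e k ≤ y.2 k := Ultrafilter.eventually_not.2 hc
        refine merge (fun k => y.1 k + a k * 2 ^ (e k - y.2 k).toNat) y.2 ?_ hy.1 ?_ (Or.inr rfl) ?_
        · exact (s2 _ _ hys (s2 _ _ ha (s4 _ h).2).2.2).1
        · refine g3 _ _ 1 (g1 0) (Eventually.of_forall fun k => ?_)
          simp
        · filter_upwards [hc', hnn y.2 hy.1] with k h1 h2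
          rw [GNF_pow (y.2 k) (e k) h2 (not_le.1 h1).le]
          ring
    · -- `e` far above `y.2`
      refine ⟨(a, e) :: y :: m, ?_, ⟨?_, ?_⟩, ?_⟩
      · intro x hx
        rcases List.mem_cons.1 hx with rfl | hx
        · exact ⟨ha, Or.inl rfl⟩
        · exact ⟨hl x hx, Or.inr ⟨x, hx, rfl⟩⟩
      · rw [List.pairwise_cons]
        refine ⟨fun z hz => ?_, List.pairwise_cons.2 hp⟩
        rcases List.mem_cons.1 hz with rfl | hz
        · exact h
        · refine g8 _ _ (g6 _ _ h (hp.1 z hz)) (Eventually.of_forall fun k => ?_)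
          change e k - y.2 k + (y.2 k - z.2 k) ≤ e k - z.2 k
          linarith
      · intro x hx
        rcases List.mem_cons.1 hx with rfl | hx
        · exact ⟨he, ha0⟩
        · exact hq x hx
      · exact Eventually.of_forall fun k => by rw [sv_cons (a, e)]
    · -- `e` far below `y.2`
      obtain ⟨m', h1, h2, h3⟩ := ih hm hmn
      have h' : Fr U N (fun k => y.2 k - e k) := g8 _ _ h (Eventually.of_forall fun k => by
        change -(e k - y.2 k) ≤ y.2 k - e k
        linarith)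
      refine ⟨y :: m', ?_, ⟨?_, ?_⟩, ?_⟩
      · intro x hx
        rcases List.mem_cons.1 hx with rfl | hx
        · exact ⟨hys, Or.inr ⟨x, List.mem_cons_self, rfl⟩⟩
        · refine ⟨(h1 x hx).1, ?_⟩
          rcases (h1 x hx).2 with h4 | ⟨z, hz, h4⟩
          · exact Or.inl h4
          · exact Or.inr ⟨z, List.mem_cons_of_mem _ hz, h4⟩
      · rw [List.pairwise_cons]
        refine ⟨fun z hz => ?_, h2.1⟩
        rcases (h1 z hz).2 with h4 | ⟨w, hw, h4⟩
        · rw [h4]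
          exact h'
        · rw [h4]
          exact hp.1 w hw
      · intro x hx
        rcases List.mem_cons.1 hx with rfl | hx
        · exact hy
        · exact h2.2 x hx
      · filter_upwards [h3] with k h4
        rw [sv_cons, sv_cons, ← h4]
        ring

theorem GNF_main (hGSM : GSM_stmt) (hGNG : GNG_stmt) (U : Ultrafilter ℕ) (N : ℕ → ℕ)
    (hN : Tendsto N (U : Filter ℕ) atTop) (P : (ℕ → ℤ) → Prop) (l : List ((ℕ → ℤ) × (ℕ → ℤ)))
    (hl : ∀ x ∈ l, Sm U N x.1 ∧ P x.2) :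
    ∃ (c' : ℕ → ℤ) (l' : List ((ℕ → ℤ) × (ℕ → ℤ))), Sm U N c' ∧ (∀ x ∈ l', Sm U N x.1 ∧ P x.2) ∧ NFm U N l' ∧
      ∀ᶠ k in (U : Filter ℕ), sv l k = c' k + sv l' k := by
  obtain ⟨s1, s2, s3, s4, s5, s6⟩ := hGSM U N hN
  obtain ⟨g1, g2, g3, g4, g5, g6, g7, g8⟩ := hGNG U N hN
  induction l with
  | nil =>
    refine ⟨fun _ => 0, [], s1 0, fun x hx => absurd hx (List.not_mem_nil), ⟨List.Pairwise.nil, fun x hx => absurd hx (List.not_mem_nil)⟩, ?_⟩
    exact Eventually.of_forall fun k => by rw [sv_nil, zero_add]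
  | cons x m ih =>
    obtain ⟨c, l', h1, h2, h3, h4⟩ := ih fun z hz => hl z (List.mem_cons_of_mem _ hz)
    have hx := hl x List.mem_cons_self
    -- small first term
    have small : Sm U N (fun k => x.1 k * 2 ^ (x.2 k).toNat) → ∃ (c' : ℕ → ℤ) (l' : List ((ℕ → ℤ) × (ℕ → ℤ))),
        Sm U N c' ∧ (∀ x ∈ l', Sm U N x.1 ∧ P x.2) ∧ NFm U N l' ∧ ∀ᶠ k in (U : Filter ℕ), sv (x :: m) k = c' k + sv l' k := by
      intro hs
      refine ⟨fun k => x.1 k * 2 ^ (x.2 k).toNat + c k, l', (s2 _ _ hs h1).1, h2, h3, ?_⟩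
      filter_upwards [h4] with k hk
      rw [sv_cons, hk, add_assoc]
    by_cases ha0 : ∀ᶠ k in (U : Filter ℕ), x.1 k = 0
    · refine ⟨c, l', h1, h2, h3, ?_⟩
      filter_upwards [h4, ha0] with k hk hk0
      rw [sv_cons, hk, hk0, zero_mul, zero_add]
    · have ha1 : ∀ᶠ k in (U : Filter ℕ), ¬ x.1 k = 0 := Ultrafilter.eventually_not.2 ha0
      rcases g4 x.2 with h | h | h
      · exact small (s2 _ _ hx.1 (s4 _ h).2).2.2
      · obtain ⟨l'', k1, k2, k3⟩ := GNF_ins hGSM hGNG U N hN x.1 x.2 hx.1 h ha1 l' (fun z hz => (h2 z hz).1) h3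
        refine ⟨c, l'', h1, fun z hz => ⟨(k1 z hz).1, ?_⟩, k2, ?_⟩
        · rcases (k1 z hz).2 with h5 | ⟨w, hw, h5⟩
          · rw [h5]
            exact hx.2
          · rw [h5]
            exact (h2 w hw).2
        · filter_upwards [h4, k3] with k hk hk'
          rw [sv_cons, hk, ← hk']
          ring
      · refine small (s3 _ _ 1 hx.1 ?_)
        filter_upwards [g7 _ (fun _ => 0) h (g1 0)] with k hk
        have h5 : (x.2 k).toNat = 0 := by
          simp only [abs_zero] at hk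
          omega
        rw [h5, pow_zero, mul_one]
        push_cast
        linarith

theorem GNF (hGSM : GSM_stmt) (hGNG : GNG_stmt) (hGLV : GLV_stmt) : GNF_stmt := by
  intro U N hN n D c l f hf
  obtain ⟨hD, hc, hl, hf⟩ := hf
  obtain ⟨c', l', h1, h2, h3, h4⟩ := GNF_main hGSM hGNG U N hN (Lv U N n) l hl
  refine ⟨fun k => c k + c' k, l', ⟨hD, ((hGSM U N hN).2.1 _ _ hc h1).1, h2, ?_⟩, h3⟩
  filter_upwards [hf, h4] with k hk hk'
  rw [hk, hk', add_assoc]

end Pool.Agent.GD
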