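import Pool.Agent.helper97.GD.Spec

set_option autoImplicit false

open Filter FirstOrder FirstOrder.Language

namespace Pool.Agent.GD

open Pool.Agent.UnivT

theorem GNG : GNG_stmt := by
  intro U N hN
  have hpos : ∀ᶠ k in (U : Filter ℕ), (1 : ℤ) ≤ N k := by
    filter_upwards [hN.eventually_ge_atTop 1] with k hk
    exact_mod_cast hk
  refine ⟨?_, ?_, ?_, ?_, ?_, ?_, ?_, ?_⟩
  · intro c j
    filter_upwards [hN.eventually_ge_atTop (j * c.natAbs)] with k hk
    rw [Int.abs_eq_natAbs]
    exact_mod_cast hk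
  · intro e e' he he'
    have key : ∀ j : ℕ, ∀ᶠ k in (U : Filter ℕ), (j : ℤ) * (|e k| + |e' k|) ≤ N k := by
      intro j
      filter_upwards [he (2 * j), he' (2 * j)] with k h1 h2
      push_cast at h1 h2
      linarith
    refine ⟨fun j => ?_, fun j => ?_⟩
    · filter_upwards [key j] with k hk
      exact (mul_le_mul_of_nonneg_left (abs_add_le (e k) (e' k)) (by positivity)).trans hk
    · filter_upwards [key j] with k hk
      exact (mul_le_mul_of_nonneg_left (abs_sub (e k) (e' k)) (by positivity)).trans hk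
  · intro e e' C he h j
    filter_upwards [h, he (2 * j * C), hN.eventually_ge_atTop (2 * j * C)] with k h1 h2 h3
    have h3' : (2 * j * C : ℤ) ≤ N k := by exact_mod_cast h3
    push_cast at h2
    have h4 : (j : ℤ) * |e' k| ≤ j * (C * (|e k| + 1)) := mul_le_mul_of_nonneg_left h1 (by positivity)
    nlinarith
  · intro e
    by_cases h : Ng U N e
    · exact Or.inl h
    · right
      obtain ⟨j, hj⟩ := not_forall.1 h
      have hj' : ∀ᶠ k in (U : Filter ℕ), ¬ ((j : ℤ) * |e k| ≤ N k) := Ultrafilter.eventually_not.2 hj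
      by_cases hs : ∀ᶠ k in (U : Filter ℕ), 0 ≤ e k
      · left
        refine ⟨j, ?_⟩
        filter_upwards [hj', hs] with k h1 h2
        rw [abs_of_nonneg h2] at h1
        exact (not_le.1 h1).le
      · right
        have hs' : ∀ᶠ k in (U : Filter ℕ), ¬ 0 ≤ e k := Ultrafilter.eventually_not.2 hs
        refine ⟨j, ?_⟩
        filter_upwards [hj', hs'] with k h1 h2
        rw [abs_of_neg (not_le.1 h2)] at h1
        exact (not_le.1 h1).le
  · rintro e e' ⟨j, hj⟩ he'
    refine ⟨⟨2 * j, ?_⟩, ⟨2 * j, ?_⟩⟩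
    · filter_upwards [hj, he' (2 * j)] with k h1 h2
      have h3 : -((2 * j : ℕ) : ℤ) * |e' k| ≤ ((2 * j : ℕ) : ℤ) * e' k := by
        have h4 := neg_abs_le (e' k)
        have h5 : (0 : ℤ) ≤ ((2 * j : ℕ) : ℤ) := by positivity
        nlinarith
      push_cast at h2 h3 ⊢
      linarith
    · filter_upwards [hj, he' (2 * j)] with k h1 h2
      have h3 : ((2 * j : ℕ) : ℤ) * e' k ≤ ((2 * j : ℕ) : ℤ) * |e' k| :=
        mul_le_mul_of_nonneg_left (le_abs_self _) (by positivity)
      push_cast at h2 h3 ⊢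
      linarith
  · rintro e e' ⟨j, hj⟩ ⟨j', hj'⟩
    refine ⟨j + j', ?_⟩
    filter_upwards [hj, hj', hpos] with k h1 h2 h3
    have h4 : 0 ≤ e k := by
      by_contra h
      have h5 : (j : ℤ) * e k ≤ 0 := mul_nonpos_of_nonneg_of_nonpos (by positivity) (not_le.1 h).le
      linarith
    have h6 : 0 ≤ e' k := by
      by_contra h
      have h5 : (j' : ℤ) * e' k ≤ 0 := mul_nonpos_of_nonneg_of_nonpos (by positivity) (not_le.1 h).le
      linarith
    have h7 : (0 : ℤ) ≤ (j : ℤ) * e' k := mul_nonneg (by positivity) h6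
    have h8 : (0 : ℤ) ≤ (j' : ℤ) * e k := mul_nonneg (by positivity) h4
    push_cast
    nlinarith
  · rintro e c ⟨j, hj⟩ hc
    filter_upwards [hj, hc (2 * j), hpos] with k h1 h2 h3
    by_contra h
    have h4 : (j : ℤ) * e k ≤ j * |c k| := mul_le_mul_of_nonneg_left (not_lt.1 h) (by positivity)
    push_cast at h2
    linarith
  · rintro e e' ⟨j, hj⟩ h
    refine ⟨j, ?_⟩
    filter_upwards [hj, h] with k h1 h2
    exact h1.trans (mul_le_mul_of_nonneg_left h2 (by positivity))

end Pool.Agent.GD
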