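import Pool.Agent.helper97.GD.Spec

set_option autoImplicit false

open Filter FirstOrder FirstOrder.Language

namespace Pool.Agent.GD

open Pool.Agent.UnivT

theorem GPO_pop_nonneg (x : ℤ) : 0 ≤ pop x := by
  unfold pop
  positivity

theorem GPO_pop_le (x : ℤ) : pop x ≤ len x := by
  unfold pop len
  have h : (Nat.digits 2 x.natAbs).sum ≤ (Nat.digits 2 x.natAbs).length • 1 :=
    List.sum_le_card_nsmul _ _ fun d hd => Nat.le_of_lt_succ (Nat.digits_lt_base (by norm_num) hd)
  rw [smul_eq_mul, mul_one] at h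
  exact_mod_cast h

theorem GPO_lt_len (x : ℤ) : |x| < 2 ^ (len x).toNat := by
  unfold len
  rw [Int.toNat_natCast, Int.abs_eq_natAbs]
  have h := Nat.lt_base_pow_length_digits (b := 2) (m := x.natAbs) (by norm_num)
  exact_mod_cast h

theorem GPO_main (hGSM : GSM_stmt) (hGNG : GNG_stmt) (hGLV : GLV_stmt) (hGSH : GSH_stmt) (hGMN : GMN_stmt)
    (hGLO : GLO_stmt) (hGVC : GVC_stmt) (hPSP : PSP_stmt) (U : Ultrafilter ℕ) (N : ℕ → ℕ)
    (hN : Tendsto N (U : Filter ℕ) atTop) (n D : ℕ) : ∀ (r : ℕ) (c : ℕ → ℤ) (l : List ((ℕ → ℤ) × (ℕ → ℤ))) (f : ℕ → ℤ),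
    l.length ≤ r → St U N n D c l f → (∀ᶠ k in (U : Filter ℕ), 0 ≤ f k) → Lv U N (n + 1) (fun k => pop (f k)) := by
  obtain ⟨s1, s2, s3, s4, s5, s6⟩ := hGSM U N hN
  obtain ⟨g1, g2, g3, g4, g5, g6, g7, g8⟩ := hGNG U N hN
  obtain ⟨v1, v2, v3, v4, v5, v6, v7⟩ := hGLV U N hN n
  obtain ⟨w1, w2, w3, w4, w5, w6, w7⟩ := hGLV U N hN (n + 1)
  have base : ∀ (c : ℕ → ℤ) (f : ℕ → ℤ), St U N n D c [] f → Lv U N (n + 1) (fun k => pop (f k)) := by
    rintro c f ⟨hD, hc, -, hf⟩
    have hfs : Sm U N f := by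
      refine s3 _ _ 1 hc ?_
      filter_upwards [hf] with k hk
      rw [sv_nil, add_zero] at hk
      have h1 : |f k| ≤ |(D : ℤ) * f k| := by
        rw [abs_mul, Nat.abs_cast]
        have h2 : (1 : ℤ) ≤ D := by exact_mod_cast hD
        nlinarith [abs_nonneg (f k)]
      rw [hk] at h1
      push_cast
      linarith
    refine w2 _ (s3 _ _ 1 (s4 _ (s5 _ hfs)).1 (Eventually.of_forall fun k => ?_))
    have h1 := GPO_pop_nonneg (f k)
    have h2 := GPO_pop_le (f k)
    rw [abs_of_nonneg h1, abs_of_nonneg (h1.trans h2)]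
    push_cast
    linarith
  intro r
  induction r with
  | zero =>
    intro c l f hl hf _
    have h1 : l = [] := List.eq_nil_of_length_eq_zero (Nat.le_zero.1 hl)
    subst h1
    exact base c f hf
  | succ r ih =>
    intro c l f hl hf hf0
    by_cases hnil : l = []
    · subst hnil
      exact base c f hf
    · obtain ⟨x, hx, hmin⟩ := hGMN U l hnil
      have hxl := hf.2.2.1 x hx
      by_cases hfr : Fr U N x.2
      · obtain ⟨C, hC⟩ := hGLO U N hN n D c l f hf
        obtain ⟨s, hs, hs'⟩ := hC (fun k => (len (c k)).toNat) (Eventually.of_forall fun k => GPO_lt_len (c k))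
        have hE : Lv U N n (fun k => x.2 k - (C : ℤ)) := (v4 _ _ hxl.2 (v2 _ (s1 C))).2.1
        have hE0 : ∀ᶠ k in (U : Filter ℕ), 0 ≤ x.2 k - (C : ℤ) := by
          filter_upwards [g7 _ _ hfr (g1 C)] with k hk
          have h1 := le_abs_self (C : ℤ)
          linarith
        have hdig := hs' (fun k => x.2 k - (C : ℤ)) fun y hy => by
          filter_upwards [hmin y hy] with k hk
          linarith
        have hlen : Ng U N (fun k => (((len (c k)).toNat : ℕ) : ℤ)) := by
          refine g3 _ _ 1 (s5 _ hf.2.1) (Eventually.of_forall fun k => ?_)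
          have h1 : 0 ≤ len (c k) := by
            unfold len
            positivity
          rw [Int.toNat_of_nonneg h1]
          push_cast
          linarith
        have hcnt := (hGVC U N hN n (fun k i => (f k).testBit i) (fun k => (len (c k)).toNat) s (fun k => x.2 k - (C : ℤ)) hs hlen hE hdig).2
        obtain ⟨c', l', h1, h2, h3⟩ := hGSH U N hN n D c l f _ hf hE hE0
        have h4 := h3 ⟨x, hx, fun h5 => by
          have h6 : Fr U N (fun _ => (C : ℤ)) := g8 _ _ h5 (Eventually.of_forall fun k => by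
            change x.2 k - (x.2 k - (C : ℤ)) ≤ (C : ℤ)
            linarith)
          obtain ⟨k, hk⟩ := (g7 _ _ h6 (g1 C)).exists
          have h7 := le_abs_self (C : ℤ)
          linarith⟩
        have h5 := ih c' l' _ (by omega) h1 (by
          filter_upwards [hf0] with k hk
          exact Int.ediv_nonneg hk (by positivity))
        refine w1 _ _ (w4 _ _ (v3 _ hcnt) h5).1 ?_
        filter_upwards [hf0] with k hk
        exact (hPSP (f k) (x.2 k - (C : ℤ)).toNat hk).symm
      · obtain ⟨c', l', h1, h2, h3⟩ := hGSH U N hN n D c l f (fun _ => 0) hf (v2 _ (s1 0)) (Eventually.of_forall fun _ => le_rfl)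
        have h4 := h3 ⟨x, hx, fun h5 => hfr (g8 _ _ h5 (Eventually.of_forall fun k => by
          change x.2 k - 0 ≤ x.2 k
          rw [sub_zero]))⟩
        have h6 : (fun k => f k / 2 ^ ((0 : ℤ)).toNat) = f := by
          funext k
          simp
        rw [h6] at h1
        exact ih c' l' f (by omega) h1 hf0

theorem GPO (hGSM : GSM_stmt) (hGNG : GNG_stmt) (hGLV : GLV_stmt) (hGSH : GSH_stmt) (hGMN : GMN_stmt) (hGLO : GLO_stmt)
    (hGVC : GVC_stmt) (hPSP : PSP_stmt) : GPO_stmt := by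
  intro U N hN n f hf
  have key : ∀ f : ℕ → ℤ, Lv U N (n + 1) f → (∀ᶠ k in (U : Filter ℕ), 0 ≤ f k) → Lv U N (n + 1) (fun k => pop (f k)) := by
    intro f hf hf0
    obtain ⟨D, l, hD, hl, h⟩ := hf
    refine GPO_main hGSM hGNG hGLV hGSH hGMN hGLO hGVC hPSP U N hN n D l.length (fun _ => 0) l f le_rfl
      ⟨hD, (hGSM U N hN).1 0, hl, ?_⟩ hf0
    filter_upwards [h] with k hk
    rw [hk, zero_add]
  by_cases h0 : ∀ᶠ k in (U : Filter ℕ), 0 ≤ f k
  · exact key f hf h0
  · have h0' : ∀ᶠ k in (U : Filter ℕ), ¬ 0 ≤ f k := Ultrafilter.eventually_not.2 h0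
    obtain ⟨v1, v2, v3, v4, v5, v6, v7⟩ := hGLV U N hN (n + 1)
    have h1 : Lv U N (n + 1) (fun k => 0 - f k) := (v4 _ _ (v2 _ ((hGSM U N hN).1 0)) hf).2.1
    refine v1 _ _ (key _ h1 ?_) (Eventually.of_forall fun k => ?_)
    · filter_upwards [h0'] with k hk
      omega
    · change pop (0 - f k) = pop (f k)
      unfold pop
      rw [zero_sub, Int.natAbs_neg]

end Pool.Agent.GD
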