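import Pool.Agent.helper97.GD.Spec

set_option autoImplicit false

open Filter FirstOrder FirstOrder.Language

namespace Pool.Agent.GD

open Pool.Agent.UnivT

theorem GVC_const (U : Ultrafilter ℕ) (B : ℕ) (g : ℕ → ℕ) (hg : ∀ k, g k < B) :
    ∃ r, ∀ᶠ k in (U : Filter ℕ), g k = r := by
  by_contra h
  push Not at h
  have h1 : ∀ r ∈ Finset.range B, ∀ᶠ k in (U : Filter ℕ), ¬ g k = r := fun r _ =>
    Ultrafilter.eventually_not.2 fun h2 => (Ultrafilter.eventually_not.1 (h r)) h2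
  have h2 := (Filter.eventually_all_finset (Finset.range B)).2 h1
  obtain ⟨k, hk⟩ := h2.exists
  exact hk (g k) (Finset.mem_range.2 (hg k)) rfl

theorem GVC_val_nonneg (s : ℕ → Bool) (L : ℕ) : 0 ≤ val s L :=
  Finset.sum_nonneg fun i _ => by split_ifs <;> positivity

theorem GVC_val_le (s : ℕ → Bool) (L : ℕ) : val s L < 2 ^ L := by
  induction L with
  | zero => simp [val]
  | succ L ih =>
    unfold val at ih ⊢
    rw [Finset.sum_range_succ, pow_succ]
    have h : (if s L = true then (2 : ℤ) ^ L else 0) ≤ 2 ^ L := by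
      split_ifs
      · exact le_rfl
      · positivity
    linarith

theorem GVC_cnt_nonneg (s : ℕ → Bool) (L : ℕ) : 0 ≤ cnt s L :=
  Finset.sum_nonneg fun i _ => by split_ifs <;> simp

theorem GVC_cnt_le (s : ℕ → Bool) (L : ℕ) : cnt s L ≤ L := by
  have h : cnt s L ≤ ∑ i ∈ Finset.range L, (1 : ℤ) := Finset.sum_le_sum fun i _ => by split_ifs <;> simp
  simpa using h

theorem GVC_val_mono (s : ℕ → Bool) {L M : ℕ} (h : L ≤ M) : val s L < 2 ^ M :=
  (GVC_val_le s L).trans_le (pow_le_pow_right₀ (by norm_num) h)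

theorem GVC_val_split (q s : ℕ → Bool) (l L : ℕ) (h : ∀ i, i < L → q (l + i) = s i) :
    val q (l + L) = val q l + 2 ^ l * val s L := by
  unfold val
  rw [Finset.sum_range_add, Finset.mul_sum]
  congr 1
  refine Finset.sum_congr rfl fun i hi => ?_
  rw [h i (Finset.mem_range.1 hi), pow_add]
  split_ifs <;> simp

theorem GVC_cnt_split (q s : ℕ → Bool) (l L : ℕ) (h : ∀ i, i < L → q (l + i) = s i) :
    cnt q (l + L) = cnt q l + cnt s L := by
  unfold cnt
  rw [Finset.sum_range_add]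
  congr 1
  exact Finset.sum_congr rfl fun i hi => by rw [h i (Finset.mem_range.1 hi)]

theorem GVC (hGSM : GSM_stmt) (hGNG : GNG_stmt) (hGLV : GLV_stmt) (hEPC : EPC_stmt) : GVC_stmt := by
  intro U N hN n p ℓ s E hs hℓ hE hp
  obtain ⟨s1, s2, s3, s4, s5, s6⟩ := hGSM U N hN
  obtain ⟨g1, g2, g3, g4, g5, g6, g7, g8⟩ := hGNG U N hN
  obtain ⟨v1, v2, v3, v4, v5, v6, v7⟩ := hGLV U N hN n
  obtain ⟨w1, w2, w3, w4, w5, w6, w7⟩ := hGLV U N hN (n + 1)
  obtain ⟨p₀, hp₀, hEPC'⟩ := hEPC s hs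
  obtain ⟨ρ, hρ⟩ := GVC_const U p₀ (fun k => ((E k).toNat - ℓ k) % p₀) fun k => Nat.mod_lt _ hp₀
  obtain ⟨a, b, c, d, A, hA⟩ := hEPC' ρ
  by_cases hc : ∀ᶠ k in (U : Filter ℕ), E k ≤ ℓ k + A
  · have hng : Ng U N (fun k => (ℓ k : ℤ) + A) := (g2 _ _ hℓ (g1 A)).1
    refine ⟨w2 _ (s3 _ _ 1 (s4 _ hng).2 ?_), v2 _ (s3 _ _ 1 (s4 _ hng).1 ?_)⟩
    · filter_upwards [hc] with k hk
      have h1 : (E k).toNat ≤ ((ℓ k : ℤ) + A).toNat := by omega
      have h2 := GVC_val_mono (p k) h1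
      have h3 := GVC_val_nonneg (p k) (E k).toNat
      rw [abs_of_nonneg h3]
      have h4 : |(2 : ℤ) ^ ((ℓ k : ℤ) + A).toNat| = 2 ^ ((ℓ k : ℤ) + A).toNat := abs_of_nonneg (by positivity)
      rw [h4]
      push_cast
      linarith
    · filter_upwards [hc] with k hk
      have h1 : ((E k).toNat : ℤ) ≤ (ℓ k : ℤ) + A := by omega
      have h2 := GVC_cnt_le (p k) (E k).toNat
      have h3 := GVC_cnt_nonneg (p k) (E k).toNat
      rw [abs_of_nonneg h3]
      have h4 : |(ℓ k : ℤ) + A| = (ℓ k : ℤ) + A := abs_of_nonneg (by positivity)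
      rw [h4]
      push_cast
      linarith
  · have hc' : ∀ᶠ k in (U : Filter ℕ), ¬ E k ≤ ℓ k + A := Ultrafilter.eventually_not.2 hc
    have hsmv : Sm U N (fun k => val (p k) (ℓ k)) := by
      refine s3 _ _ 1 (s4 _ hℓ).2 (Eventually.of_forall fun k => ?_)
      have h2 := GVC_val_le (p k) (ℓ k)
      rw [abs_of_nonneg (GVC_val_nonneg (p k) (ℓ k)), Int.toNat_natCast, abs_of_nonneg (by positivity : (0 : ℤ) ≤ 2 ^ ℓ k)]
      push_cast
      linarith
    have hsmc : Sm U N (fun k => cnt (p k) (ℓ k)) := by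
      refine s3 _ _ 1 (s4 _ hℓ).1 (Eventually.of_forall fun k => ?_)
      have h2 := GVC_cnt_le (p k) (ℓ k)
      rw [abs_of_nonneg (GVC_cnt_nonneg (p k) (ℓ k)), abs_of_nonneg (by positivity : (0 : ℤ) ≤ (ℓ k : ℤ))]
      push_cast
      linarith
    have hkey : ∀ᶠ k in (U : Filter ℕ), ∃ L : ℕ, (E k).toNat = ℓ k + L ∧ (E k : ℤ) = ℓ k + L ∧
        (val s L : ℚ) = a + b * 2 ^ L ∧ (cnt s L : ℚ) = c + d * L ∧
        val (p k) (E k).toNat = val (p k) (ℓ k) + 2 ^ ℓ k * val s L ∧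
        cnt (p k) (E k).toNat = cnt (p k) (ℓ k) + cnt s L := by
      filter_upwards [hc', hρ, hp] with k h1 h2 h3
      have h4 : (E k).toNat = ℓ k + ((E k).toNat - ℓ k) := by omega
      have h5 : A ≤ (E k).toNat - ℓ k := by omega
      have h6 : ((E k).toNat - ℓ k) % p₀ = ρ % p₀ := by
        rw [← h2, Nat.mod_mod]
      have h7 : ∀ i, i < (E k).toNat - ℓ k → p k (ℓ k + i) = s i := fun i hi => h3 i (by omega)
      refine ⟨(E k).toNat - ℓ k, h4, by omega, (hA _ h5 h6).1, (hA _ h5 h6).2, ?_, ?_⟩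
      · have h8 := GVC_val_split (p k) s (ℓ k) _ h7
        rw [← h4] at h8
        exact h8
      · have h8 := GVC_cnt_split (p k) s (ℓ k) _ h7
        rw [← h4] at h8
        exact h8
    constructor
    · have ha := Rat.num_div_den a
      have hb := Rat.num_div_den b
      have hda : (a.den : ℚ) ≠ 0 := by exact_mod_cast a.den_ne_zero
      have hdb : (b.den : ℚ) ≠ 0 := by exact_mod_cast b.den_ne_zero
      refine w5 (a.den * b.den) _ (Nat.mul_pos a.den_pos b.den_pos) ?_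
      have hR : Lv U N (n + 1) (fun k => (((a.den * b.den : ℕ) : ℤ) * val (p k) (ℓ k) + (a.num * b.den) * 2 ^ ((ℓ k : ℤ)).toNat) +
          (b.num * a.den) * 2 ^ (E k).toNat) := by
        refine (w4 _ _ (w2 _ (s2 _ _ (s2 _ _ (s1 _) hsmv).2.2 (s2 _ _ (s1 _) (s4 _ hℓ).2).2.2).1)
          (w4 _ _ (w2 _ (s1 _)) (v7 E hE)).2.2).1
      refine w1 _ _ hR ?_
      filter_upwards [hkey] with k hk
      obtain ⟨L, h1, h2, h3, h4, h5, h6⟩ := hk
      rw [h5]
      have h7 : (((val s L : ℤ)) : ℚ) = a.num / a.den + b.num / b.den * 2 ^ L := by rw [h3, ha, hb]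
      have h8 : (a.den * b.den : ℚ) * val s L = a.num * b.den + b.num * a.den * 2 ^ L := by
        rw [h7]
        field_simp
      have h9 : ((a.den * b.den : ℕ) : ℤ) * val s L = a.num * b.den + b.num * a.den * 2 ^ L := by
        exact_mod_cast h8
      have h10 : (2 : ℤ) ^ (E k).toNat = 2 ^ ℓ k * 2 ^ L := by rw [h1, pow_add]
      rw [h10, Int.toNat_natCast, mul_add]
      have h11 : ((a.den * b.den : ℕ) : ℤ) * (2 ^ ℓ k * val s L) = 2 ^ ℓ k * (((a.den * b.den : ℕ) : ℤ) * val s L) := by ring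
      rw [h11, h9]
      ring
    · have ha := Rat.num_div_den c
      have hb := Rat.num_div_den d
      have hda : (c.den : ℚ) ≠ 0 := by exact_mod_cast c.den_ne_zero
      have hdb : (d.den : ℚ) ≠ 0 := by exact_mod_cast d.den_ne_zero
      refine v5 (c.den * d.den) _ (Nat.mul_pos c.den_pos d.den_pos) ?_
      have hR : Lv U N n (fun k => (((c.den * d.den : ℕ) : ℤ) * cnt (p k) (ℓ k) + (c.num * d.den)) +
          (d.num * c.den) * (E k - ℓ k)) := by
        refine (v4 _ _ (v2 _ (s2 _ _ (s2 _ _ (s1 _) hsmc).2.2 (s1 _)).1)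
          (v4 _ _ (v2 _ (s1 _)) (v4 _ _ hE (v2 _ (s4 _ hℓ).1)).2.1).2.2).1
      refine v1 _ _ hR ?_
      filter_upwards [hkey] with k hk
      obtain ⟨L, h1, h2, h3, h4, h5, h6⟩ := hk
      rw [h6]
      have h7 : (((cnt s L : ℤ)) : ℚ) = c.num / c.den + d.num / d.den * L := by rw [h4, ha, hb]
      have h8 : (c.den * d.den : ℚ) * cnt s L = c.num * d.den + d.num * c.den * L := by
        rw [h7]
        field_simp
      have h9 : ((c.den * d.den : ℕ) : ℤ) * cnt s L = c.num * d.den + d.num * c.den * L := by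
        exact_mod_cast h8
      rw [mul_add, h9]
      have h10 : E k - ℓ k = L := by omega
      rw [h10]
      ring

end Pool.Agent.GD
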